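import Pool.Agent.Lib.H36R.CY
import Pool.Agent.Lib.H36R.CQ

/-!
# H24A, file A: two vertices of a 2-connected graph on a vertex set `Y` lie on one cycle
-/

set_option autoImplicit false

namespace H24A

open Finset H98M H85TF H36R

/-- `S` is the vertex set of one cycle, with the edge set `F`, of the graph `E`. -/
def IsCyc {V : Type*} [DecidableEq V] (E F : Finset (Sym2 V)) (S : Finset V) : Prop :=
  F ⊆ E ∧ (∀ v, dg F v = 0 ∨ dg F v = 2) ∧ (∀ v, v ∈ S ↔ dg F v = 2) ∧ ¬ Disc S F

/-- Along a walk with edges in `F` one stays in one part. -/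
theorem walk_same {V : Type*} [DecidableEq V] {E F : Finset (Sym2 V)} {C D : Finset V}
    (hno : ∀ x ∈ C, ∀ y ∈ D, s(x, y) ∉ F) {a c : V}
    (p : (SimpleGraph.fromEdgeSet (E : Set (Sym2 V))).Walk a c) (hF : ∀ e ∈ p.edges, e ∈ F)
    (hCD : ∀ x ∈ p.support, x ∈ C ∨ x ∈ D) (ha : a ∈ C) : ∀ x ∈ p.support, x ∈ C := by
  induction p with
  | nil =>
    intro x hx
    rw [SimpleGraph.Walk.support_nil, List.mem_singleton] at hx
    exact hx ▸ ha
  | @cons u v w h q ih =>
    intro x hx
    rw [SimpleGraph.Walk.support_cons, List.mem_cons] at hx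
    rcases hx with rfl | hx
    · exact ha
    · refine ih (fun e he => hF e ?_) (fun y hy => hCD y ?_) ?_ x hx
      · rw [SimpleGraph.Walk.edges_cons]
        exact List.mem_cons_of_mem _ he
      · rw [SimpleGraph.Walk.support_cons]
        exact List.mem_cons_of_mem _ hy
      · rcases hCD v (by
          rw [SimpleGraph.Walk.support_cons]
          exact List.mem_cons_of_mem _ q.start_mem_support) with h1 | h1
        · exact h1
        · exact absurd (hF s(u, v) (by rw [SimpleGraph.Walk.edges_cons]; exact List.mem_cons_self))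
            (hno u ha v h1)

/-- A path between two neighbours of `z` which avoids `z` gives a cycle. -/
theorem cyc_of_path {V : Type*} [DecidableEq V] {E : Finset (Sym2 V)} {z a c : V} (haz : a ≠ z)
    (hcz : c ≠ z) (hac : a ≠ c) (hza : s(z, a) ∈ E) (hzc : s(z, c) ∈ E)
    (r : (SimpleGraph.fromEdgeSet (E : Set (Sym2 V))).Walk a c) (hr : r.IsPath)
    (hrz : ∀ x ∈ r.support, x ≠ z) :
    ∃ F S, IsCyc E F S ∧ z ∈ S ∧ ∀ x ∈ r.support, x ∈ S := by
  classical
  have hn1 : s(z, c) ∉ (∅ : Finset (Sym2 V)) := notMem_empty _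
  have hn2 : s(z, a) ∉ insert s(z, c) (∅ : Finset (Sym2 V)) := by
    intro h
    rcases mem_insert.1 h with h | h
    · rw [Sym2.eq_iff] at h
      rcases h with h | h
      · exact hac h.2
      · exact hcz h.1.symm
    · exact notMem_empty _ h
  have key : ∀ x, dg (insert s(z, a) (insert s(z, c) (∅ : Finset (Sym2 V)))) x =
      (if x = z ∨ x = c then 1 else 0) + if x = z ∨ x = a then 1 else 0 := by
    intro x
    rw [dg_insert hn2, dg_insert hn1]
    simp [dg]
  obtain ⟨F', h1, h2, h4, h5, h6, h7, h8⟩ := addPath2 r hr (insert s(z, a) (insert s(z, c) ∅))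
    (insert_subset hza (insert_subset hzc (empty_subset _))) hac
    (by
      intro h
      rcases mem_insert.1 h with h | h
      · rw [Sym2.eq_iff] at h
        rcases h with h | h
        · exact haz h.1
        · exact hcz h.2
      · rcases mem_insert.1 h with h | h
        · rw [Sym2.eq_iff] at h
          rcases h with h | h
          · exact haz h.1
          · exact hac h.1
        · exact notMem_empty _ h)
    (by rw [key]; simp [haz, hac])
    (by rw [key]; simp [hcz, Ne.symm hac])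
    (by
      intro x hx1 hx2
      rw [key]
      by_cases hx : x = z
      · subst hx; simp
      · simp [hx, hx1, hx2])
    (by
      intro x hx hx1 hx2
      rw [key]
      simp [hrz x hx, hx1, hx2])
  have hz2 : dg F' z = 2 := h5 z (by rw [key]; simp)
  obtain ⟨S, hS⟩ : ∃ S : Finset V, ∀ v, v ∈ S ↔ dg F' v = 2 := by
    refine ⟨insert z r.support.toFinset, fun v => ?_⟩
    rw [mem_insert, List.mem_toFinset]
    constructor
    · rintro (rfl | h)
      · exact hz2
      · exact h4 v h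
    · intro hv
      rcases h8 v (by omega) with h | h
      · rw [key] at h
        by_cases hvz : v = z
        · exact Or.inl hvz
        · by_cases hvc : v = c
          · exact Or.inr (hvc ▸ r.end_mem_support)
          · by_cases hva : v = a
            · exact Or.inr (hva ▸ r.start_mem_support)
            · exact absurd (by simp [hvz, hvc, hva]) h
      · exact Or.inr h
  refine ⟨F', S, ⟨h1, h2, hS, ?_⟩, (hS z).2 hz2, fun x hx => (hS x).2 (h4 x hx)⟩
  have hSz : ∀ v ∈ S, v = z ∨ v ∈ r.support := by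
    intro v hv
    rcases h8 v (by rw [(hS v).1 hv]; decide) with h | h
    · rw [key] at h
      by_cases hvz : v = z
      · exact Or.inl hvz
      · by_cases hvc : v = c
        · exact Or.inr (hvc ▸ r.end_mem_support)
        · by_cases hva : v = a
          · exact Or.inr (hva ▸ r.start_mem_support)
          · exact absurd (by simp [hvz, hvc, hva]) h
    · exact Or.inr h
  have hmain : ∀ C D : Finset V, D.Nonempty → Disjoint C D → C ∪ D = S →
      (∀ x ∈ C, ∀ y ∈ D, s(x, y) ∉ F') → z ∈ C → False := by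
    intro C D ⟨d, hd⟩ hCD hu hno hzC
    have hsub : ∀ x ∈ r.support, x ∈ C ∨ x ∈ D := fun x hx =>
      mem_union.1 (hu ▸ (hS x).2 (h4 x hx))
    have haC : a ∈ C := by
      rcases hsub a r.start_mem_support with h | h
      · exact h
      · exact absurd (h6 (mem_insert_self _ _)) (hno z hzC a h)
    have hall := walk_same hno r h7 hsub haC
    have hdS : d ∈ S := hu ▸ mem_union_right _ hd
    rcases hSz d hdS with h | h
    · exact disjoint_left.1 hCD (h ▸ hzC) hd
    · exact disjoint_left.1 hCD (hall d h) hd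
  rintro ⟨C, D, hC, hD, hCD, hu, hno⟩
  rcases mem_union.1 (hu ▸ (hS z).2 hz2 : z ∈ C ∪ D) with h | h
  · exact hmain C D hD hCD hu hno h
  · refine hmain D C hC hCD.symm (by rw [union_comm]; exact hu) (fun x hx y hy hxy => ?_) h
    exact hno y hy x hx (by rw [Sym2.eq_swap]; exact hxy)

/-- Two adjacent vertices of a 2-connected graph lie on one cycle. -/
theorem cyc_adj {V : Type*} [DecidableEq V] {E : Finset (Sym2 V)} {Y : Finset V} (hT : LD.TCY E Y)
    {z w : V} (hz : z ∈ Y) (hw : w ∈ Y) (hzw : s(z, w) ∈ E) :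
    ∃ F S, IsCyc E F S ∧ z ∈ S ∧ w ∈ S := by
  classical
  have hne : z ≠ w := fun e => hT.loop _ hzw (by simpa using e)
  obtain ⟨u, huw, hu⟩ : ∃ u, u ≠ w ∧ s(z, u) ∈ E := by
    by_contra hcon
    push Not at hcon
    refine hT.conn' w hw ⟨{z}, (Y.erase w).erase z, singleton_nonempty z, ?_, ?_, ?_, ?_⟩
    · rw [← card_pos, card_erase_of_mem (mem_erase.2 ⟨hne, hz⟩), card_erase_of_mem hw]
      have := hT.three
      omega
    · simp
    · rw [← insert_eq, insert_erase (mem_erase.2 ⟨hne, hz⟩)]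
    · intro x hx y hy
      rw [mem_singleton.1 hx]
      rw [mem_erase, mem_erase] at hy
      exact hcon y hy.2.1
  have huz : u ≠ z := fun e => hT.loop _ hu (by simp [e])
  have huY : u ∈ Y := hT.sub _ hu u (by simp)
  obtain ⟨p, hp, hpU⟩ := path_of_not_disc (hT.conn' z hz) (b := u) (d := w)
    (mem_erase.2 ⟨huz, huY⟩) (mem_erase.2 ⟨Ne.symm hne, hw⟩)
  obtain ⟨F, S, h1, h2, h3⟩ := cyc_of_path huz (Ne.symm hne) huw hu hzw p hp
    (fun x hx => (mem_erase.1 (hpU x hx)).1)
  exact ⟨F, S, h1, h2, h3 w p.end_mem_support⟩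

/-- TWO VERTICES OF A 2-CONNECTED GRAPH LIE ON ONE CYCLE. -/
theorem cyc_two {V : Type} [DecidableEq V] {E : Finset (Sym2 V)} {Y : Finset V} (hT : LD.TCY E Y)
    {z w : V} (hzY : z ∈ Y) (hwY : w ∈ Y) : ∃ F S, IsCyc E F S ∧ z ∈ S ∧ w ∈ S := by
  classical
  by_cases hzw : z = w
  · subst hzw
    obtain ⟨u, hu⟩ : ∃ u, s(z, u) ∈ E := by
      by_contra hcon
      push Not at hcon
      refine hT.conn ⟨{z}, Y.erase z, singleton_nonempty z, ?_, ?_, ?_, ?_⟩
      · rw [← card_pos, card_erase_of_mem hzY]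
        have := hT.three
        omega
      · simp
      · rw [← insert_eq, insert_erase hzY]
      · intro x hx y _
        rw [mem_singleton.1 hx]
        exact hcon y
    obtain ⟨F, S, h1, h2, -⟩ := cyc_adj hT hzY (hT.sub _ hu u (by simp)) hu
    exact ⟨F, S, h1, h2, h2⟩
  by_cases hn : s(z, w) ∈ E
  · exact cyc_adj hT hzY hwY hn
  have hc := hT.conn
  have hcut := hT.conn'
  set G := SimpleGraph.fromEdgeSet (E : Set (Sym2 V)) with hG
  have hadj : ∀ a b, G.Adj a b ↔ s(a, b) ∈ E ∧ a ≠ b := by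
    intro a b
    rw [hG, SimpleGraph.fromEdgeSet_adj]
    exact and_congr (by exact_mod_cast Iff.rfl) Iff.rfl
  obtain ⟨S, hS'⟩ : ∃ S : Finset V, ∀ x, x ∈ S ↔ x ∈ Y ∧ x ≠ z ∧ x ≠ w :=
    ⟨Y.filter fun x => x ≠ z ∧ x ≠ w, fun x => by simp⟩
  have hS : ∀ x, x ∈ S → x ≠ z ∧ x ≠ w := fun x hx => ((hS' x).1 hx).2
  obtain ⟨A, hA⟩ : ∃ A : Finset V, ∀ x, x ∈ A ↔ x ∈ S ∧ s(z, x) ∈ E :=
    ⟨S.filter fun x => s(z, x) ∈ E, fun x => by simp⟩
  obtain ⟨B, hB⟩ : ∃ B : Finset V, ∀ x, x ∈ B ↔ x ∈ S ∧ s(w, x) ∈ E :=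
    ⟨S.filter fun x => s(w, x) ∈ E, fun x => by simp⟩
  obtain ⟨C, D, hCS, hDS, hC, hD, ⟨a, haC, haA⟩, ⟨b, hbC, hbB⟩, ⟨c, hcD, hcA⟩, ⟨d, hdD, hdB⟩, hCD⟩ :=
    two_link G S A B (fun x hx => ((hA x).1 hx).1) (fun x hx => ((hB x).1 hx).1) (by
      intro Z U hZ hU hAU hUB hcl
      by_contra hlt
      have hdisc : Disc (Y \ Z) E := by
        refine disc_of_sepY hzY hwY hzw hn (fun h => (hS z (hZ h)).1 rfl) (fun h => (hS w (hZ h)).2 rfl)
          (U := U) (fun x hx => ⟨((hS' x).1 (hU x hx).1).1, (hS x (hU x hx).1).1, (hS x (hU x hx).1).2,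
            (hU x hx).2⟩) ?_ ?_ ?_
        · intro x hxY hx h1 h2 h4
          exact hAU x ((hA x).2 ⟨(hS' x).2 ⟨hxY, h1, h2⟩, hx⟩) h4
        · intro x hx h1
          exact hUB x hx ((hB x).2 ⟨(hU x hx).1, h1⟩)
        · intro x hx y hyY h1 h2 h4 h5 h6
          refine hcl x hx y ((hS' y).2 ⟨hyY, h1, h2⟩) h4 h5 ((hadj x y).2 ⟨h6, ?_⟩)
          rintro rfl
          exact h5 hx
      have hcard : Z.card = 0 ∨ Z.card = 1 := by omega
      rcases hcard with h0 | h1
      · rw [card_eq_zero] at h0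
        subst h0
        rw [sdiff_empty] at hdisc
        exact hc hdisc
      · obtain ⟨v, rfl⟩ := card_eq_one.1 h1
        rw [sdiff_singleton_eq_erase] at hdisc
        exact hcut v ((hS' v).1 (hZ (mem_singleton_self v))).1 hdisc)
  obtain ⟨p, hp, hpC⟩ := path_of_not_disc (not_disc_of_conn hC) haC hbC
  obtain ⟨q, hq, hqD⟩ := path_of_not_disc (not_disc_of_conn hD) hdD hcD
  have haz : a ≠ z := (hS a ((hA a).1 haA).1).1
  have hcz : c ≠ z := (hS c ((hA c).1 hcA).1).1
  have hbw : G.Adj b w := (hadj b w).2 ⟨by rw [Sym2.eq_swap]; exact ((hB b).1 hbB).2,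
    (hS b ((hB b).1 hbB).1).2⟩
  have hwd : G.Adj w d := (hadj w d).2 ⟨((hB d).1 hdB).2, Ne.symm (hS d ((hB d).1 hdB).1).2⟩
  have hac : a ≠ c := by
    rintro rfl
    exact hCD a haC hcD
  set r := p.append (SimpleGraph.Walk.cons hbw (SimpleGraph.Walk.cons hwd q)) with hr
  have hsup : r.support = p.support ++ (w :: q.support) := by
    rw [hr, SimpleGraph.Walk.support_append]
    simp
  have hrp : r.IsPath := by
    rw [SimpleGraph.Walk.isPath_def, hsup]
    refine List.Nodup.append (by rw [← SimpleGraph.Walk.isPath_def]; exact hp) ?_ ?_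
    · rw [List.nodup_cons]
      exact ⟨fun h => (hS w (hDS (hqD w h))).2 rfl, by rw [← SimpleGraph.Walk.isPath_def]; exact hq⟩
    · intro x hx hx'
      rcases List.mem_cons.1 hx' with rfl | hx'
      · exact (hS x (hCS (hpC x hx))).2 rfl
      · exact hCD x (hpC x hx) (hqD x hx')
  have hrz : ∀ x ∈ r.support, x ≠ z := by
    intro x hx
    rw [hsup, List.mem_append, List.mem_cons] at hx
    rcases hx with hx | rfl | hx
    · exact (hS x (hCS (hpC x hx))).1
    · exact Ne.symm hzw
    · exact (hS x (hDS (hqD x hx))).1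
  obtain ⟨F, T, h1, h2, h3⟩ := cyc_of_path haz hcz hac ((hA a).1 haA).2 ((hA c).1 hcA).2 r hrp hrz
  exact ⟨F, T, h1, h2, h3 w (by rw [hsup]; simp)⟩

end H24A
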