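import Pool.Agent.Lib.H24A.A
import Pool.Agent.Lib.H47G5.Cv

/-!
# H24A, file B: two vertices of a 2-connected graph on `Y` lie on one cycle, in the form of `H47G5.OneCyc`
-/

set_option autoImplicit false

namespace H24A

open Finset H98M H85TF H36R

theorem oneF_of_isCyc {V : Type*} [DecidableEq V] {E F : Finset (Sym2 V)} {S : Finset V}
    (h : IsCyc E F S) : H47G5.OneF F := by
  classical
  obtain ⟨h1, h2, h3, h4⟩ := h
  refine ⟨h2, fun T hT x hx hx0 y hy0 => ?_⟩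
  by_contra hy
  refine h4 ⟨S ∩ T, S \ T, ⟨x, mem_inter.2 ⟨(h3 x).2 ((h2 x).resolve_left hx0), hx⟩⟩,
    ⟨y, mem_sdiff.2 ⟨(h3 y).2 ((h2 y).resolve_left hy0), hy⟩⟩, ?_, ?_, ?_⟩
  · exact disjoint_left.2 fun v hv hv' => (mem_sdiff.1 hv').2 (mem_inter.1 hv).2
  · rw [union_comm, sdiff_union_inter]
  · intro u hu v hv huv
    exact (mem_sdiff.1 hv).2 (hT u (mem_inter.1 hu).2 v huv)

/-- (A) TWO VERTICES OF A 2-CONNECTED GRAPH LIE ON ONE CYCLE. -/
theorem oneCyc_two {V : Type} [DecidableEq V] {E : Finset (Sym2 V)} {Y : Finset V}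
    (hT : LD.TCY E Y) {a b : V} (ha : a ∈ Y) (hb : b ∈ Y) : H47G5.OneCyc E {a, b} := by
  obtain ⟨F, S, h, h1, h2⟩ := cyc_two hT ha hb
  refine ⟨F, h.1, oneF_of_isCyc h, fun v hv => ?_⟩
  rcases mem_insert.1 hv with rfl | hv
  · exact (h.2.2.1 v).1 h1
  · rw [mem_singleton.1 hv]
    exact (h.2.2.1 b).1 h2

theorem oneCyc_one {V : Type} [DecidableEq V] {E : Finset (Sym2 V)} {Y : Finset V}
    (hT : LD.TCY E Y) {a : V} (ha : a ∈ Y) : H47G5.OneCyc E {a} := by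
  have h := oneCyc_two hT ha ha
  rwa [pair_eq_singleton] at h

end H24A
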